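import Pool.Agent.H19.Flex

set_option autoImplicit false

namespace Pool.Agent.Results.MP_f141fb_co.Lower

open Pool.Agent.H19.Flex

/-- Unit distance graphs with many edges and no rigid subgraph on three or more vertices. -/
theorem result (k n : ℕ) (hk : 1 ≤ k) (hn : 4 * (k * (2 * k + 3) ^ k) ^ k ≤ n) :
    ∃ (V : Type) (_ : Fintype V) (G : SimpleGraph V) (p : V → ℂ), Fintype.card V = n ∧
      Function.Injective p ∧ (∀ a b, G.Adj a b → dist (p a) (p b) = 1) ∧
      2 ^ k * n ≤ 12 * G.edgeSet.ncard ∧ ∀ H : G.Subgraph, 3 ≤ H.verts.ncard → ¬ Rigid p H :=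
  main k n hk hn

end Pool.Agent.Results.MP_f141fb_co.Lower
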